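import Pool.Agent.helper94.SP.Main

/-!
# Counting points of the renormalised spectrum near the golden ratio
-/

namespace Pool.Agent.helper94.SP

open Finset Filter Topology

/-- Counting form of `gap`. -/
theorem count (β : ℝ) (h1 : 1 < β) (h2 : 2 ≤ β ^ 2) (h3 : β < 2)
    (hδ0 : β ^ 2 - β - 1 ≠ 0) (s t : ℝ) (hs : -1 ≤ s) (ht : t ≤ 1) (k : ℕ)
    (hst : (2 * k + 1) * (2 * |β ^ 2 - β - 1| * (2 * β - 1)) ≤ t - s) :
    ((k + 1 : ℕ) : ℕ∞) ≤ (Y β ∩ Set.Icc s t).encard := by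
  set E := 2 * |β ^ 2 - β - 1| * (2 * β - 1) with hE
  have hEpos : 0 < E := by
    have := abs_pos.mpr hδ0
    rw [hE]
    have : 0 < 2 * β - 1 := by linarith
    positivity
  have hpt : ∀ j : Fin (k + 1), ∃ y ∈ Y β, s + 2 * (j : ℕ) * E ≤ y ∧
      y ≤ s + (2 * (j : ℕ) + 1) * E := by
    intro j
    have hjk : ((j : ℕ) : ℝ) ≤ k := by
      have := j.2
      exact_mod_cast Nat.lt_succ_iff.mp this
    have hj0 : (0 : ℝ) ≤ ((j : ℕ) : ℝ) := Nat.cast_nonneg _
    apply gap β h1 h2 h3 hδ0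
    · have : 0 ≤ 2 * ((j : ℕ) : ℝ) * E := by positivity
      linarith
    · have : (2 * ((j : ℕ) : ℝ) + 1) * E ≤ (2 * k + 1) * E :=
        mul_le_mul_of_nonneg_right (by linarith) hEpos.le
      linarith
    · rw [← hE]
      linarith
  choose f hf1 hf2 hf3 using hpt
  have hmono : StrictMono f := by
    intro i j hij
    have hij' : ((i : ℕ) : ℝ) + 1 ≤ ((j : ℕ) : ℝ) := by
      have : (i : ℕ) + 1 ≤ (j : ℕ) := hij
      exact_mod_cast this
    have a := hf3 i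
    have b := hf2 j
    have : (2 * ((i : ℕ) : ℝ) + 1) * E < 2 * ((j : ℕ) : ℝ) * E :=
      mul_lt_mul_of_pos_right (by linarith) hEpos
    linarith
  have hsub : Set.range f ⊆ Y β ∩ Set.Icc s t := by
    rintro _ ⟨j, rfl⟩
    have hjk : ((j : ℕ) : ℝ) ≤ k := by
      have := j.2
      exact_mod_cast Nat.lt_succ_iff.mp this
    have hj0 : (0 : ℝ) ≤ ((j : ℕ) : ℝ) := Nat.cast_nonneg _
    refine ⟨hf1 j, ?_, ?_⟩
    · have : 0 ≤ 2 * ((j : ℕ) : ℝ) * E := by positivity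
      have := hf2 j
      linarith
    · have : (2 * ((j : ℕ) : ℝ) + 1) * E ≤ (2 * k + 1) * E :=
        mul_le_mul_of_nonneg_right (by linarith) hEpos.le
      have := hf3 j
      linarith
  have hcard : ((k + 1 : ℕ) : ℕ∞) ≤ (Set.range f).encard := by
    have := hmono.injective.encard_range
    refine le_trans ?_ this
    simp
  exact hcard.trans (Set.encard_le_encard hsub)

/-- Zeros of the golden polynomial. -/
theorem golden_of_zero {β : ℝ} (h0 : 0 < β) (h : β ^ 2 - β - 1 = 0) :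
    β = (1 + Real.sqrt 5) / 2 := by
  have h5 : Real.sqrt 5 ^ 2 = 5 := Real.sq_sqrt (by norm_num)
  have hs : 0 ≤ Real.sqrt 5 := Real.sqrt_nonneg 5
  have hf : (β - (1 + Real.sqrt 5) / 2) * (β - (1 - Real.sqrt 5) / 2) = 0 := by
    nlinarith
  rcases mul_eq_zero.mp hf with h' | h'
  · linarith
  · exfalso
    have h2 : 1 < Real.sqrt 5 := by
      rw [Real.lt_sqrt (by norm_num)]
      norm_num
    linarith

/-- Sequence form. -/
theorem seq_count (β : ℕ → ℝ) (hne : ∀ᶠ n in atTop, β n ≠ (1 + Real.sqrt 5) / 2)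
    (hlim : Tendsto β atTop (𝓝 ((1 + Real.sqrt 5) / 2))) (s t : ℝ) (hs : -1 ≤ s) (hst : s < t)
    (ht : t ≤ 1) (k : ℕ) :
    ∀ᶠ n in atTop, (k : ℕ∞) ≤ (Y (β n) ∩ Set.Ioo s t).encard := by
  have h5 : Real.sqrt 5 ^ 2 = 5 := Real.sq_sqrt (by norm_num)
  have hs5 : 0 ≤ Real.sqrt 5 := Real.sqrt_nonneg 5
  have hlo : 2.2 < Real.sqrt 5 := by
    rw [Real.lt_sqrt (by norm_num)]
    norm_num
  have hhi : Real.sqrt 5 < 2.3 := by
    rw [Real.sqrt_lt' (by norm_num)]
    norm_num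
  have e1 : ∀ᶠ n in atTop, (1.5 : ℝ) < β n :=
    hlim.eventually_const_lt (by linarith)
  have e2 : ∀ᶠ n in atTop, β n < 2 :=
    hlim.eventually_lt_const (by linarith)
  have hcont : Tendsto (fun n => (2 * (k : ℝ) + 1) *
      (2 * |β n ^ 2 - β n - 1| * (2 * β n - 1))) atTop (𝓝 0) := by
    have hc : Continuous (fun x : ℝ => (2 * (k : ℝ) + 1) *
        (2 * |x ^ 2 - x - 1| * (2 * x - 1))) := by fun_prop
    have := (hc.tendsto ((1 + Real.sqrt 5) / 2)).comp hlim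
    have h0 : (2 * (k : ℝ) + 1) * (2 * |((1 + Real.sqrt 5) / 2) ^ 2 - (1 + Real.sqrt 5) / 2 - 1|
        * (2 * ((1 + Real.sqrt 5) / 2) - 1)) = 0 := by
      have : ((1 + Real.sqrt 5) / 2) ^ 2 - (1 + Real.sqrt 5) / 2 - 1 = 0 := by nlinarith
      rw [this]
      simp
    rw [h0] at this
    exact this
  have e3 : ∀ᶠ n in atTop, (2 * (k : ℝ) + 1) *
      (2 * |β n ^ 2 - β n - 1| * (2 * β n - 1)) < (t - s) / 2 :=
    hcont.eventually_lt_const (by linarith)
  filter_upwards [hne, e1, e2, e3] with n h0 h1 h2 h3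
  have hc := count (β n) (by linarith) (by nlinarith) h2
    (fun h => h0 (golden_of_zero (by linarith) h)) (s + (t - s) / 4) (t - (t - s) / 4)
    (by linarith) (by linarith) k (by linarith)
  have hk : (k : ℕ∞) ≤ ((k + 1 : ℕ) : ℕ∞) := by
    exact_mod_cast Nat.le_succ k
  refine hk.trans (hc.trans (Set.encard_le_encard ?_))
  rintro y ⟨hy, hy1, hy2⟩
  exact ⟨hy, by linarith, by linarith⟩

end Pool.Agent.helper94.SP
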