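import Mathlib

/-!
# Spectra with digits -1, 0, 1: definitions
-/

namespace Pool.Agent.helper94.SP

open Finset Filter Topology

/-- The spectrum of `β` with digits `-1, 0, 1`. -/
def X (β : ℝ) : Set ℝ :=
  {x | ∃ (n : ℕ) (a : ℕ → ℤ), (∀ i, a i = -1 ∨ a i = 0 ∨ a i = 1) ∧
    x = ∑ i ∈ Finset.range (n + 1), (a i : ℝ) * β ^ i}

/-- The renormalised piece of the spectrum in `[-1, 1]`. -/
def Y (β : ℝ) : Set ℝ :=
  {y | ∃ x ∈ X β, |x| ≤ 1 / (β - 1) ∧ y = (β - 1) * x}

/-- `β` is a Pisot number: a real algebraic integer greater than one all of whose other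
conjugates have modulus less than one. -/
def IsPisot (β : ℝ) : Prop :=
  1 < β ∧ IsIntegral ℤ β ∧
    ∀ z : ℂ, Polynomial.aeval z (minpoly ℤ β) = 0 → z ≠ (β : ℂ) → ‖z‖ < 1

/-- The degree of an algebraic integer. -/
noncomputable def deg (β : ℝ) : ℕ := (minpoly ℤ β).natDegree

end Pool.Agent.helper94.SP
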