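import Pool.Agent.helper94.SP.Defs

/-!
# Spectra with digits -1, 0, 1 near the golden ratio have small gaps

For real `β` with `√2 ≤ β < 2` and `δ = β^2 - β - 1 ≠ 0` every point of the interval
`[-1/(β-1), 1/(β-1)]` is within `|δ| (2β-1)/(β-1)` of a point of the spectrum `X β`.
-/

namespace Pool.Agent.helper94.SP

open Finset Filter Topology

/-- Two-step greedy lemma. -/
theorem greedy (β δ : ℝ) (h1 : 1 < β) (h2 : 2 ≤ β ^ 2) (h3 : β < 2)
    (hδ : δ = β ^ 2 - β - 1) :
    ∀ N : ℕ, ∀ y : ℝ, 0 ≤ y → y ≤ β ^ N → ∃ a : ℕ → ℤ,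
      (∀ i, a i = -1 ∨ a i = 0 ∨ a i = 1) ∧ (a (N + 1) = 0 ∨ a (N + 1) = 1) ∧
      (∀ i, N + 2 ≤ i → a i = 0) ∧
      |(∑ i ∈ Finset.range (N + 2), (a i : ℝ) * β ^ i) - δ * y| ≤ |δ| * (1 + |δ| * β ^ N) := by
  have hb0 : (0 : ℝ) < β := by linarith
  have key : ∀ N : ℕ,
      (∀ y : ℝ, 0 ≤ y → y ≤ β ^ N → ∃ a : ℕ → ℤ,
      (∀ i, a i = -1 ∨ a i = 0 ∨ a i = 1) ∧ (a (N + 1) = 0 ∨ a (N + 1) = 1) ∧
      (∀ i, N + 2 ≤ i → a i = 0) ∧
      |(∑ i ∈ Finset.range (N + 2), (a i : ℝ) * β ^ i) - δ * y| ≤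
        |δ| * (1 + |δ| * β ^ N)) ∧
      (∀ y : ℝ, 0 ≤ y → y ≤ β ^ (N + 1) → ∃ a : ℕ → ℤ,
      (∀ i, a i = -1 ∨ a i = 0 ∨ a i = 1) ∧ (a (N + 1 + 1) = 0 ∨ a (N + 1 + 1) = 1) ∧
      (∀ i, N + 1 + 2 ≤ i → a i = 0) ∧
      |(∑ i ∈ Finset.range (N + 1 + 2), (a i : ℝ) * β ^ i) - δ * y| ≤
        |δ| * (1 + |δ| * β ^ (N + 1))) := by
    intro N
    induction N with
    | zero =>
      refine ⟨?_, ?_⟩
      · intro y hy0 hy1
        refine ⟨fun _ => 0, fun _ => Or.inr (Or.inl rfl), Or.inl rfl, fun _ _ => rfl, ?_⟩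
        have e : |(∑ i ∈ Finset.range (0 + 2), (((fun _ => 0 : ℕ → ℤ) i : ℤ) : ℝ) * β ^ i)
            - δ * y| = |δ| * y := by
          simp [abs_mul, abs_of_nonneg hy0]
        rw [e]
        have hy1' : y ≤ 1 := by simpa using hy1
        have hd := abs_nonneg δ
        have : 0 ≤ |δ| * |δ| := mul_nonneg hd hd
        simp only [pow_zero, mul_one]
        nlinarith
      · intro y hy0 hy1
        have hy1' : y ≤ β := by simpa using hy1
        have hd := abs_nonneg δ
        have hdd : 0 ≤ |δ| * |δ| := mul_nonneg hd hd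
        have hddb : 0 ≤ |δ| * (|δ| * β) := by positivity
        by_cases hy : y ≤ 1
        · refine ⟨fun _ => 0, fun _ => Or.inr (Or.inl rfl), Or.inl rfl, fun _ _ => rfl, ?_⟩
          have e : |(∑ i ∈ Finset.range (0 + 1 + 2), (((fun _ => 0 : ℕ → ℤ) i : ℤ) : ℝ) * β ^ i)
              - δ * y| = |δ| * y := by
            simp [abs_mul, abs_of_nonneg hy0]
          rw [e]
          simp only [zero_add, pow_one]
          nlinarith
        · push Not at hy
          refine ⟨fun i => if i = 0 then -1 else if i = 1 then -1 else if i = 2 then 1 else 0,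
            ?_, ?_, ?_, ?_⟩
          · intro i
            dsimp only
            split_ifs <;> simp
          · right
            simp
          · intro i hi
            have e0 : i ≠ 0 := by omega
            have e1 : i ≠ 1 := by omega
            have e2 : i ≠ 2 := by omega
            simp [e0, e1, e2]
          · have e : (∑ i ∈ Finset.range (0 + 1 + 2),
                (((fun i => if i = 0 then -1 else if i = 1 then -1 else if i = 2 then 1 else 0
                  : ℕ → ℤ) i : ℤ) : ℝ) * β ^ i) = δ := by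
              simp [Finset.sum_range_succ]
              rw [hδ]
              ring
            rw [e]
            have e2 : δ - δ * y = -(δ * (y - 1)) := by ring
            rw [e2, abs_neg, abs_mul, abs_of_nonneg (by linarith : 0 ≤ y - 1)]
            simp only [zero_add, pow_one]
            nlinarith
    | succ M ih =>
      refine ⟨ih.2, ?_⟩
      intro y hy0 hy1
      have hd := abs_nonneg δ
      have hpM : 0 < β ^ M := pow_pos hb0 M
      by_cases hy : y ≤ β ^ (M + 1)
      · obtain ⟨a, ha1, ha2, ha3, ha4⟩ := ih.2 y hy0 hy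
        refine ⟨a, ha1, Or.inl (ha3 _ (by omega)), fun i hi => ha3 i (by omega), ?_⟩
        rw [show M + 1 + 1 + 2 = (M + 1 + 2) + 1 by ring, Finset.sum_range_succ,
          ha3 (M + 1 + 2) (by omega)]
        simp only [Int.cast_zero, zero_mul, add_zero]
        refine ha4.trans ?_
        apply mul_le_mul_of_nonneg_left _ hd
        have : β ^ (M + 1) ≤ β ^ (M + 1 + 1) := pow_le_pow_right₀ h1.le (by omega)
        nlinarith
      · push Not at hy
        set y1 := y - β ^ (M + 1) with hy1def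
        have hy1pos : 0 ≤ y1 := by rw [hy1def]; linarith
        have hy1le : y1 ≤ β ^ M * (1 + δ) := by
          have : β ^ (M + 1 + 1) = β ^ M * (β ^ 2) := by ring
          have h' : β ^ (M + 1) = β ^ M * β := by ring
          rw [hy1def, hδ]
          rw [this] at hy1
          rw [h']
          nlinarith
        set y2 := min y1 (β ^ M) with hy2def
        have hy2pos : 0 ≤ y2 := le_min hy1pos hpM.le
        obtain ⟨a, ha1, ha2, ha3, ha4⟩ := ih.1 y2 hy2pos (min_le_right _ _)
        have hdiff : |y1 - y2| ≤ |δ| * β ^ M := by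
          rw [abs_of_nonneg (by linarith [min_le_left y1 (β ^ M)])]
          rcases le_total y1 (β ^ M) with h | h
          · rw [hy2def, min_eq_left h]
            simp only [sub_self]
            positivity
          · rw [hy2def, min_eq_right h]
            have : δ ≤ |δ| := le_abs_self δ
            nlinarith
        refine ⟨fun i => if i = M + 3 then 1 else if i = M + 2 then -1 else
          if i = M + 1 then a (M + 1) - 1 else a i, ?_, ?_, ?_, ?_⟩
        · intro i
          dsimp only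
          split_ifs
          · simp
          · simp
          · rcases ha2 with h | h <;> rw [h] <;> simp
          · exact ha1 i
        · right
          simp
        · intro i hi
          have e0 : i ≠ M + 3 := by omega
          have e1 : i ≠ M + 2 := by omega
          have e2 : i ≠ M + 1 := by omega
          simp only [e0, e1, e2, if_false]
          exact ha3 i (by omega)
        · have e : (∑ i ∈ Finset.range (M + 1 + 1 + 2),
              (((fun i => if i = M + 3 then 1 else if i = M + 2 then -1 else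
                if i = M + 1 then a (M + 1) - 1 else a i : ℕ → ℤ) i : ℤ) : ℝ) * β ^ i)
              = (∑ i ∈ Finset.range (M + 2), (a i : ℝ) * β ^ i) + δ * β ^ (M + 1) := by
            rw [show M + 1 + 1 + 2 = (((M + 1) + 1) + 1) + 1 by ring,
              Finset.sum_range_succ, Finset.sum_range_succ, Finset.sum_range_succ,
              show M + 2 = (M + 1) + 1 by ring, Finset.sum_range_succ _ (M + 1)]
            have es : (∑ i ∈ Finset.range (M + 1),
              (((fun i => if i = M + 3 then 1 else if i = M + 1 + 1 then -1 else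
                if i = M + 1 then a (M + 1) - 1 else a i : ℕ → ℤ) i : ℤ) : ℝ) * β ^ i)
                = ∑ i ∈ Finset.range (M + 1), (a i : ℝ) * β ^ i := by
              apply Finset.sum_congr rfl
              intro i hi
              have hi' := Finset.mem_range.mp hi
              have e0 : i ≠ M + 3 := by omega
              have e1 : i ≠ M + 1 + 1 := by omega
              have e2 : i ≠ M + 1 := by omega
              simp only [e0, e1, e2, if_false]
            rw [es]
            have c1 : M + 1 ≠ M + 3 := by omega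
            have c2 : M + 1 ≠ M + 1 + 1 := by omega
            have c3 : M + 1 + 1 ≠ M + 3 := by omega
            have c4 : M + 1 + 1 + 1 = M + 3 := by omega
            simp only [c1, c2, c3, c4, if_true, if_false]
            push_cast
            rw [hδ]
            ring
          rw [e]
          have e2 : (∑ i ∈ Finset.range (M + 2), (a i : ℝ) * β ^ i) + δ * β ^ (M + 1) - δ * y
              = ((∑ i ∈ Finset.range (M + 2), (a i : ℝ) * β ^ i) - δ * y2)
                - δ * (y1 - y2) := by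
            rw [hy1def]; ring
          rw [e2]
          refine (abs_sub _ _).trans ?_
          rw [abs_mul]
          have hA : |δ| * |y1 - y2| ≤ |δ| * (|δ| * β ^ M) :=
            mul_le_mul_of_nonneg_left hdiff hd
          have hB : β ^ (M + 1 + 1) = β ^ M * β ^ 2 := by ring
          have hC : |δ| * (|δ| * β ^ M) * 2 ≤ |δ| * (|δ| * β ^ (M + 1 + 1)) := by
            rw [hB]
            have : 0 ≤ |δ| * (|δ| * β ^ M) := by positivity
            nlinarith
          nlinarith
  exact fun N => (key N).1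

theorem X_neg {β x : ℝ} (h : x ∈ X β) : -x ∈ X β := by
  obtain ⟨n, a, ha, rfl⟩ := h
  refine ⟨n, fun i => - a i, ?_, ?_⟩
  · intro i
    rcases ha i with h | h | h <;> simp [h]
  · rw [← Finset.sum_neg_distrib]
    apply Finset.sum_congr rfl
    intro i _
    push_cast
    ring

/-- Nonnegative targets. -/
theorem approx_nonneg (β δ : ℝ) (h1 : 1 < β) (h2 : 2 ≤ β ^ 2) (h3 : β < 2)
    (hδ : δ = β ^ 2 - β - 1) (hδ0 : δ ≠ 0) (x : ℝ) (hx0 : 0 ≤ x) (hx1 : x ≤ 1 / (β - 1)) :
    ∃ z ∈ X β, |z - x| ≤ |δ| * (2 * β - 1) / (β - 1) := by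
  have hb0 : (0 : ℝ) < β := by linarith
  have hb1 : (0 : ℝ) < β - 1 := by linarith
  have hdpos : 0 < |δ| := abs_pos.mpr hδ0
  have hd1 : |δ| ≤ 1 := by
    rw [abs_le]
    constructor
    · rw [hδ]; nlinarith
    · rw [hδ]; nlinarith
  set y := x / |δ| with hy
  have hy0 : 0 ≤ y := by positivity
  have hxy : |δ| * y = x := by rw [hy]; field_simp
  have hex : ∃ N : ℕ, y ≤ β ^ N := by
    obtain ⟨N, hN⟩ := pow_unbounded_of_one_lt y h1
    exact ⟨N, hN.le⟩
  classical
  let N := Nat.find hex
  have hN : y ≤ β ^ N := Nat.find_spec hex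
  have hbound : |δ| * β ^ N ≤ β / (β - 1) := by
    rcases Nat.eq_zero_or_pos N with h0 | hpos
    · rw [h0]
      rw [le_div_iff₀ hb1]
      simp only [pow_zero, mul_one]
      nlinarith
    · have hlt : ¬ y ≤ β ^ (N - 1) := Nat.find_min hex (by omega)
      push Not at hlt
      have hpow : β ^ N = β ^ (N - 1) * β := by
        rw [← pow_succ]
        congr 1
        omega
      rw [hpow]
      have : |δ| * (β ^ (N - 1) * β) ≤ β * x := by
        rw [← hxy]
        have : |δ| * β ^ (N - 1) ≤ |δ| * y := mul_le_mul_of_nonneg_left hlt.le hdpos.le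
        nlinarith
      refine this.trans ?_
      have : β * x ≤ β * (1 / (β - 1)) := mul_le_mul_of_nonneg_left hx1 hb0.le
      calc β * x ≤ β * (1 / (β - 1)) := this
        _ = β / (β - 1) := by ring
  obtain ⟨a, ha1, -, -, ha4⟩ := greedy β δ h1 h2 h3 hδ N y hy0 hN
  have hE : |δ| * (1 + |δ| * β ^ N) ≤ |δ| * (2 * β - 1) / (β - 1) := by
    have : |δ| * (1 + |δ| * β ^ N) ≤ |δ| * (1 + β / (β - 1)) :=
      mul_le_mul_of_nonneg_left (by linarith) hdpos.le
    refine this.trans (le_of_eq ?_)
    field_simp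
    ring
  have hz : (∑ i ∈ Finset.range (N + 2), (a i : ℝ) * β ^ i) ∈ X β :=
    ⟨N + 1, a, ha1, rfl⟩
  rcases lt_or_gt_of_ne hδ0 with hneg | hpos
  · refine ⟨-(∑ i ∈ Finset.range (N + 2), (a i : ℝ) * β ^ i), X_neg hz, ?_⟩
    have : -(∑ i ∈ Finset.range (N + 2), (a i : ℝ) * β ^ i) - x
        = -((∑ i ∈ Finset.range (N + 2), (a i : ℝ) * β ^ i) - δ * y) := by
      rw [← hxy, abs_of_neg hneg]; ring
    rw [this, abs_neg]
    exact ha4.trans hE
  · refine ⟨∑ i ∈ Finset.range (N + 2), (a i : ℝ) * β ^ i, hz, ?_⟩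
    have : (∑ i ∈ Finset.range (N + 2), (a i : ℝ) * β ^ i) - x
        = ((∑ i ∈ Finset.range (N + 2), (a i : ℝ) * β ^ i) - δ * y) := by
      rw [← hxy, abs_of_pos hpos]
    rw [this]
    exact ha4.trans hE

theorem approx (β δ : ℝ) (h1 : 1 < β) (h2 : 2 ≤ β ^ 2) (h3 : β < 2)
    (hδ : δ = β ^ 2 - β - 1) (hδ0 : δ ≠ 0) (x : ℝ) (hx1 : |x| ≤ 1 / (β - 1)) :
    ∃ z ∈ X β, |z - x| ≤ |δ| * (2 * β - 1) / (β - 1) := by
  rcases le_total 0 x with h | h
  · exact approx_nonneg β δ h1 h2 h3 hδ hδ0 x h ((le_abs_self x).trans hx1)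
  · obtain ⟨z, hz, hzx⟩ := approx_nonneg β δ h1 h2 h3 hδ hδ0 (-x) (by linarith)
      ((neg_le_abs x).trans hx1)
    refine ⟨-z, X_neg hz, ?_⟩
    have : -z - x = -(z - -x) := by ring
    rw [this, abs_neg]
    exact hzx

/-- Every closed interval in `[-1, 1]` of length at least `2 |β^2 - β - 1| (2β - 1)` contains
a point of `Y β`. -/
theorem gap (β : ℝ) (h1 : 1 < β) (h2 : 2 ≤ β ^ 2) (h3 : β < 2)
    (hδ0 : β ^ 2 - β - 1 ≠ 0) (s t : ℝ) (hs : -1 ≤ s) (ht : t ≤ 1)
    (hst : 2 * |β ^ 2 - β - 1| * (2 * β - 1) ≤ t - s) :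
    ∃ y ∈ Y β, s ≤ y ∧ y ≤ t := by
  have hb1 : (0 : ℝ) < β - 1 := by linarith
  set δ := β ^ 2 - β - 1 with hδ
  have hE0 : 0 ≤ |δ| * (2 * β - 1) := mul_nonneg (abs_nonneg _) (by linarith)
  set m := (s + t) / 2 with hm
  have hm1 : |m| ≤ 1 := by
    rw [abs_le]
    constructor <;> rw [hm] <;> linarith
  have hx : |m / (β - 1)| ≤ 1 / (β - 1) := by
    rw [abs_div, abs_of_pos hb1]
    exact div_le_div_of_nonneg_right hm1 hb1.le
  obtain ⟨z, hz, hzx⟩ := approx β δ h1 h2 h3 hδ hδ0 _ hx
  have hy : |(β - 1) * z - m| ≤ |δ| * (2 * β - 1) := by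
    have : (β - 1) * z - m = (β - 1) * (z - m / (β - 1)) := by field_simp
    rw [this, abs_mul, abs_of_pos hb1]
    calc (β - 1) * |z - m / (β - 1)| ≤ (β - 1) * (|δ| * (2 * β - 1) / (β - 1)) :=
          mul_le_mul_of_nonneg_left hzx hb1.le
      _ = |δ| * (2 * β - 1) := by field_simp
  rw [abs_le] at hy
  have hlo : s ≤ (β - 1) * z := by
    have := hy.1
    rw [hm] at this
    linarith
  have hhi : (β - 1) * z ≤ t := by
    have := hy.2
    rw [hm] at this
    linarith
  refine ⟨(β - 1) * z, ⟨z, hz, ?_, rfl⟩, hlo, hhi⟩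
  rw [le_div_iff₀ hb1]
  rw [← abs_of_pos hb1, ← abs_mul, abs_le]
  constructor <;> nlinarith

end Pool.Agent.helper94.SP
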